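import Pool.Agent.T9h40.GC.Defs

/-!
# Fibres over large `x`
-/

set_option autoImplicit false

open Polynomial Filter Topology Bornology

namespace Pool.Agent.T9h67.GC

open Pool.Agent.T9h40.GP (ww rg qq HypP rts Br Asy)
open Pool.Agent.T9h40.GC

theorem ev {p : ℂ → Prop} (h : ∀ᶠ t in cobounded ℂ, p t) (R : ℝ) :
    ∃ R₁, R ≤ R₁ ∧ ∀ t : ℂ, R₁ < ‖t‖ → p t := by
  obtain ⟨r, -, hr⟩ := (hasBasis_cobounded_norm.eventually_iff).1 h
  exact ⟨max R r, le_max_left _ _, fun t ht => hr (show r ≤ ‖t‖ from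
    ((le_max_right _ _).trans_lt ht).le)⟩

theorem far {n e : ℕ} {A : Fin n → ℂ[X]} {R : ℝ} {y : Fin n → ℂ → ℂ} (he : 1 ≤ e)
    (h : Asy n e A R y) (l j : Fin n) (hlj : l ≠ j) :
    ∀ᶠ t in cobounded ℂ, 1 < ‖y j t - (A l).eval t‖ := by
  obtain ⟨c, hc⟩ := h.off l j hlj
  have h1 : Tendsto (fun t : ℂ => Real.log ‖t‖) (cobounded ℂ) atTop :=
    Real.tendsto_log_atTop.comp tendsto_norm_cobounded_atTop
  have h2 : Tendsto (fun t : ℂ => (e : ℝ) * Real.log ‖t‖) (cobounded ℂ) atTop :=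
    h1.const_mul_atTop (by exact_mod_cast he)
  have h3 := hc.add_atTop h2
  have h4 := h3.eventually_gt_atTop 0
  filter_upwards [h4] with t ht
  have h5 : 0 < Real.log ‖y j t - (A l).eval t‖ := by linarith
  exact (Real.log_pos_iff (norm_nonneg _)).1 h5

theorem fib : Fib := by
  intro n r e P A V hV R y hR hfac hasy
  obtain ⟨R₀, hin1, hin2⟩ := hV.inf
  have h1 : ∀ᶠ t in cobounded ℂ, ∀ i l j, l ≠ j → 1 < ‖y i j t - (A i l).eval t‖ := by
    rw [eventually_all]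
    intro i
    rw [eventually_all]
    intro l
    rw [eventually_all]
    intro j
    by_cases hlj : l = j
    · exact Eventually.of_forall fun t h => absurd hlj h
    · exact (far (hV.hyp i).e1 (hasy i) l j hlj).mono fun t ht _ => ht
  obtain ⟨R₁, hR1, hfar⟩ := ev h1 (max R R₀)
  have k1 : R ≤ R₁ := (le_max_left _ _).trans hR1
  have k0 : R₀ ≤ R₁ := (le_max_right _ _).trans hR1
  have key : ∀ (t : ℂ) (w : Fin (r + 1) → ℂ) (l : Fin n), R₁ < ‖t‖ → ((t, w) : Pt r) ∈ V →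
      (∀ i, ‖w i - (A i l).eval t‖ < 1) → ∀ i, w i = y i l t := by
    intro t w l ht hw hl i
    have h2 : evalEval t (w i) (P i) = 0 := hV.on (t, w) hw i
    rw [hfac i t (k1.trans_lt ht)] at h2
    obtain ⟨j, -, hj⟩ := Finset.prod_eq_zero_iff.1 h2
    rw [sub_eq_zero] at hj
    by_cases hlj : l = j
    · rw [hj, hlj]
    · have h3 := hfar t ht i l j hlj
      have h4 := hl i
      rw [hj] at h4
      exact absurd h3 (not_lt.2 h4.le)
  refine ⟨R₁, k1, ?_, ?_⟩
  · intro p hp ht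
    obtain ⟨l, hl⟩ := hin1 p hp (k0.trans_lt ht)
    exact ⟨l, key p.1 p.2 l ht hp hl⟩
  · intro t ht j
    obtain ⟨w, hw, hwj⟩ := hin2 t (k0.trans_lt ht) j
    have h5 := key t w j ht hw hwj
    have h6 : (fun i => y i j t) = w := by
      funext i
      exact (h5 i).symm
    rw [h6]
    exact hw

end Pool.Agent.T9h67.GC
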